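import Pool.Agent.helper28.L1.Growth

/-!
# OC project: convolution on `ℓ₁(G)` is not open for infinite `G` of bounded exponent: definitions
-/

open scoped BigOperators

namespace Pool.Agent.helper28.OC

open L1G

/-- Openness of the convolution of `ℓ₁(G)`. -/
def OpenConv (G : Type*) [Group G] : Prop := IsOpenMap fun q : L1 G × L1 G => conv q.1 q.2

/-! ### Operators on `ℓ₂(G)` -/

/-- Right translation by `g` on `ℓ₂(G)`. -/
noncomputable def rt {G : Type*} [Group G] (g : G) : L2 G →ₗᵢ[ℂ] L2 G where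
  toFun f := ⟨fun x => f (x * g), by
    apply memℓp_gen
    have h := (Equiv.summable_iff (Equiv.mulRight g)).2 (summable_sq f)
    simpa [Function.comp_def] using h⟩
  map_add' _ _ := by ext; simp
  map_smul' _ _ := by ext; simp
  norm_map' f := by
    have h1 : ‖(⟨fun x => f (x * g), by
      apply memℓp_gen
      have h := (Equiv.summable_iff (Equiv.mulRight g)).2 (summable_sq f)
      simpa [Function.comp_def] using h⟩ : L2 G)‖ ^ 2 = ‖f‖ ^ 2 := by
      rw [norm_sq_eq, norm_sq_eq]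
      exact Equiv.tsum_eq (Equiv.mulRight g) (fun x => ‖f x‖ ^ 2)
    exact (sq_eq_sq₀ (norm_nonneg _) (norm_nonneg _)).1 h1

@[simp] theorem rt_apply {G : Type*} [Group G] (g : G) (f : L2 G) (x : G) :
    rt g f x = f (x * g) := rfl

/-- The action of `u ∈ ℓ₁(G)` on `ℓ₂(G)` as a continuous linear map. -/
noncomputable def actL {G : Type*} [Group G] (u : L1 G) : L2 G →L[ℂ] L2 G :=
  LinearMap.mkContinuous
    { toFun := act u
      map_add' := fun f f' => by
        unfold act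
        rw [← (summable_act u f).tsum_add (summable_act u f')]
        congr 1
        funext g
        rw [map_add, smul_add]
      map_smul' := fun c f => by
        unfold act
        rw [RingHom.id_apply, ← tsum_const_smul'' c]
        congr 1
        funext g
        rw [map_smul, smul_comm] } ‖u‖ (norm_act_le u)

@[simp] theorem actL_apply {G : Type*} [Group G] (u : L1 G) (f : L2 G) : actL u f = act u f := rfl

theorem norm_actL_le {G : Type*} [Group G] (u : L1 G) : ‖actL u‖ ≤ ‖u‖ :=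
  LinearMap.mkContinuous_norm_le _ (norm_nonneg _) _

/-- Finitely supported elements as elements of `ℓ₁(G)`. -/
noncomputable def toL1 {G : Type*} (f : MonoidAlgebra ℂ G) : L1 G :=
  ⟨fun x => f.coeff x, memlp_of_summable (summable_coeff f)⟩

theorem toL1_apply {G : Type*} (f : MonoidAlgebra ℂ G) (x : G) : toL1 f x = f.coeff x := rfl

theorem conv_toL1 {G : Type*} [Group G] (a b : MonoidAlgebra ℂ G) :
    conv (toL1 a) (toL1 b) = toL1 (a * b) := by
  classical
  ext x
  have h1 : a * b = ∑ y ∈ a.coeff.support, MonoidAlgebra.single y (a.coeff y) * b := by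
    conv_lhs => rw [← MonoidAlgebra.sum_coeff_single a]
    rw [Finsupp.sum, Finset.sum_mul]
  rw [conv_apply, toL1_apply, h1]
  rw [tsum_eq_sum (s := a.coeff.support)]
  · simp [toL1_apply, MonoidAlgebra.coeff_single_mul_apply, MonoidAlgebra.coeff_sum]
  · intro y hy
    have : a.coeff y = 0 := by simpa using hy
    simp [toL1_apply, this]

theorem actL_toL1 {G : Type*} [Group G] (a : MonoidAlgebra ℂ G) : actL (toL1 a) = Lam a := by
  classical
  ext1 f
  have h1 : a = ∑ y ∈ a.coeff.support, MonoidAlgebra.single y (a.coeff y) := by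
    conv_lhs => rw [← MonoidAlgebra.sum_coeff_single a]
    rfl
  conv_rhs => rw [h1]
  rw [map_sum, sum_apply, actL_apply, act, tsum_eq_sum (s := a.coeff.support)]
  · refine Finset.sum_congr rfl fun y _ => ?_
    rw [Lam_single]; rfl
  · intro y hy
    have : a.coeff y = 0 := by simpa using hy
    simp [toL1_apply, this]

/-! ### Finite abelian groups -/

/-- `AB f C`: `f` has a Fourier expansion with absolute sum of the coefficients at most `C`. -/
def AB {Ω : Type*} [AddCommGroup Ω] [Finite Ω] (f : Ω → ℂ) (C : ℝ) : Prop :=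
  ∃ c : AddChar Ω ℂ → ℂ, (∀ w, f w = ∑ ψ, c ψ * ψ w) ∧ ∑ ψ, ‖c ψ‖ ≤ C

/-- Index set of the first `n` levels: `C (k + 1)` coordinates of either sign at level `k`. -/
abbrev Kap (C n : ℕ) := Σ k : Fin n, Fin (C * ((k : ℕ) + 1)) × Bool

/-- The coefficient `± 2 ^ (-k)`. -/
noncomputable def bc {C n : ℕ} (j : Kap C n) : ℝ :=
  (if j.2.2 then 1 else -1) * (1 / 2) ^ (j.1 : ℕ)

/-- The space of the first `n` levels. -/
abbrev Om1 (p C n : ℕ) := Kap C n → ZMod p

/-- The space of the fresh coordinates. -/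
abbrev Omm (p m : ℕ) := Fin m → ZMod p

/-- The full space. -/
abbrev Om (p C n m : ℕ) := Om1 p C n × Om1 p C n × Omm p m

/-- The real random sum `∑ ± 2 ^ (-k) 1[w_j = 0]`. -/
noncomputable def A1 {p C n : ℕ} (w : Om1 p C n) : ℝ := ∑ j, bc j * (if w j = 0 then 1 else 0)

/-- The function `a`. -/
noncomputable def aa {p C n m : ℕ} (w : Om p C n m) : ℂ := (A1 w.1 : ℂ) + A1 w.2.1 * Complex.I

/-- The number of vanishing coordinates. -/
noncomputable def XX {p m : ℕ} (v : Omm p m) : ℝ := ∑ i, if v i = 0 then 1 else 0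

/-- The perturbation on the fresh coordinates. -/
noncomputable def zf {p m : ℕ} (δ : ℝ) (v : Omm p m) : ℝ := δ / (3 * m) * (XX v - m / p)

/-! ### One-dimensional smoothed density -/

/-- Smoothed density of `A1` at `t`, twisted by the character `ψ`. -/
noncomputable def dd {p C n : ℕ} [NeZero p] (h : ℝ) (ψ : AddChar (Om1 p C n) ℂ) (t : ℝ) : ℂ :=
  (𝔼 w : Om1 p C n, ψ w * (Real.exp (-(A1 w - t) ^ 2 / (2 * h ^ 2)) : ℝ)) / h

/-- The character sum estimate (B1), with the constant `C`. -/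
def CharBd (p C : ℕ) [NeZero p] : Prop :=
  ∀ (n : ℕ) (ψ : AddChar (Om1 p C n) ℂ) (ξ : ℝ), 1 ≤ |ξ| → |ξ| < 2 ^ n →
    ‖𝔼 w : Om1 p C n, ψ w * Complex.exp (Complex.I * ξ * A1 w)‖ ≤ (|ξ| ^ 4)⁻¹

/-- Smoothness of the twisted densities at scale `h`. -/
def Good (p C n : ℕ) [NeZero p] (h : ℝ) : Prop :=
  ∀ (ψ : AddChar (Om1 p C n) ℂ) (t : ℝ), ‖dd h ψ t‖ ≤ 6 ∧ ‖dd h ψ t - dd h ψ 0‖ ≤ 6 * |t| ∧
    ‖dd h ψ t + dd h ψ (-t) - 2 * dd h ψ 0‖ ≤ 6 * t ^ 2

/-! ### The functional on the full space -/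

/-- Gaussian weight at `t`. -/
noncomputable def WW {p C n m : ℕ} (h : ℝ) (t : ℝ × ℝ) (w : Om p C n m) : ℝ :=
  Real.exp (-((A1 w.1 - t.1) ^ 2 + (A1 w.2.1 - t.2) ^ 2) / (2 * h ^ 2)) / h ^ 2

/-- The functional `D_f(t)`, complex version. -/
noncomputable def DD {p C n m : ℕ} [NeZero p] (h : ℝ) (t : ℝ × ℝ) (f : Om p C n m → ℂ) : ℂ :=
  𝔼 w : Om p C n m, f w * WW h t w

/-- The functional `D_f(t)`, real version. -/
noncomputable def DR {p C n m : ℕ} [NeZero p] (h : ℝ) (t : ℝ × ℝ) (f : Om p C n m → ℝ) : ℝ :=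
  𝔼 w : Om p C n m, f w * WW h t w

/-! ### Auxiliary functions of `q` -/

/-- `w_N = 1 - (1 - |q|²/ε²)^N`. -/
noncomputable def wN (ε : ℝ) (N : ℕ) (q : ℂ) : ℝ := 1 - (1 - ‖q‖ ^ 2 / ε ^ 2) ^ N

/-- `h_N = q² w_N / |q|²`. -/
noncomputable def hN (ε : ℝ) (N : ℕ) (q : ℂ) : ℂ :=
  q ^ 2 / ε ^ 2 * ∑ j ∈ Finset.range N, ((1 - ‖q‖ ^ 2 / ε ^ 2 : ℝ) : ℂ) ^ j

/-- `f₀ = |d|² - |q|² - 2 Re (a q̄)`. -/
noncomputable def f0 (a q d : ℂ) : ℝ := ‖d‖ ^ 2 - ‖q‖ ^ 2 - 2 * (a * star q).re

/-! ### The group `⊕ ℤ/p` -/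

/-- The group `⊕_I ℤ/p`, written multiplicatively. -/
abbrev EG (I : Type) (p : ℕ) := Multiplicative (I →₀ ZMod p)

/-- The Fourier transform of `f ∈ ℓ₁(⊕_I ℤ/p)` at `w : I → ℤ/p`. -/
noncomputable def ft {I : Type} {p : ℕ} [NeZero p] (f : L1 (EG I p)) (w : I → ZMod p) : ℂ :=
  ∑' x : EG I p, f x * ZMod.stdAddChar (Finsupp.linearCombination (ZMod p) w x.toAdd)

/-- All levels. -/
abbrev KapI (C : ℕ) := Σ k : ℕ, Fin (C * (k + 1)) × Bool

/-- The index set of the coordinates: real levels, imaginary levels, fresh coordinates. -/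
abbrev Idx (C : ℕ) := (KapI C ⊕ KapI C) ⊕ ℕ

/-- Extension by zero of the first `n` levels. -/
def ext1 {p C n : ℕ} (w : Om1 p C n) (j : KapI C) : ZMod p :=
  if h : j.1 < n then w ⟨⟨j.1, h⟩, j.2⟩ else 0

/-- Extension by zero, from the finite space to all coordinates. -/
def extw {p C n m : ℕ} (w : Om p C n m) : Idx C → ZMod p
  | Sum.inl (Sum.inl j) => ext1 w.1 j
  | Sum.inl (Sum.inr j) => ext1 w.2.1 j
  | Sum.inr i => if h : i < m then w.2.2 ⟨i, h⟩ else 0

end Pool.Agent.helper28.OC
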