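import Pool.Agent.helper63.CV.A1
import Pool.Agent.helper8.OC.A2
import Pool.Agent.helper8.OC.A4
import Pool.Agent.helper43.OC.A3d
import Pool.Agent.helper98.CV.T3
import Pool.Agent.helper92.CV.B1
import Pool.Agent.helper4.CV.X2

/-!
# OC project: assembly
-/

namespace Pool.Agent.helper28.OC

open L1G

theorem final {G : Type*} [Group G] [Infinite G] {n : ℕ} (hn : 0 < n) (hG : ∀ g : G, g ^ n = 1) :
    ¬ OpenConv G := by
  intro hopen
  by_cases hK : ∀ K : Subgroup G, Finite K → K.Normal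
  · have hinf := A4_abelianization hn hG hK
    obtain ⟨p, hp, hφ⟩ := A2_exists_hom hn hG hinf
    have : Fact p.Prime := ⟨hp⟩
    obtain ⟨C, hC0, hC⟩ := B1_charBd p
    obtain ⟨φ, hφs⟩ := hφ (Idx C)
    exact T4_not_open p C hC0 (X2_fin p C hC0 hC) (A1_quotient φ hφs hopen)
  · push Not at hK
    obtain ⟨K, hfin, hKn⟩ := hK
    exact A3d_not_open K hKn hopen

end Pool.Agent.helper28.OC
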